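import Pool.Agent.Helper60.T3.GoalsE
import Pool.Agent.Helper12.PM.CHW
import Pool.Agent.Helper29.BL.PS

/-!
# Project T3 (MP_a41896_nt), packet CWB: comparison of the heights of the centre and of a univariate centre
-/

set_option autoImplicit false

open MvPolynomial

namespace Pool.Agent.Helper57.T3.CWB

open WeierstrassCurve Height Height.AdmissibleAbsValues
open Pool.Agent.Helper29.BL Pool.Agent.Helper92.Ru Pool.Agent.Helper42.SG
open Pool.Agent.Helper5.UN (hv CodimGT cH)
open Pool.Agent.Helper19.PM (cW rhoW wU)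

theorem t : Pool.Agent.Helper60.T3.S_CWB := by
  intro K _ _ σ _ _ D ι _ f hdeg I D' r S x hS hr hne hne' hloc
  classical
  obtain ⟨hF, hrho⟩ := Pool.Agent.Helper12.PM.t_CHW K {i // i ∈ I} {i // i ∈ I} (wU D')
    r (fun i => x i.1) hne'
  obtain ⟨j0, hj0⟩ := hne
  have hbd : ∀ v : AbsoluteValue K ℝ, BddAbove (Set.range fun j => v (eval x (f j))) :=
    fun v => (Set.finite_range _).bddAbove
  have hle : ∀ v : AbsoluteValue K ℝ, v (eval x (f j0)) ≤ ⨆ j, v (eval x (f j)) :=
    fun v => le_ciSup (hbd v) j0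
  have hs : ∀ v : AbsoluteValue K ℝ, 0 < ⨆ j, v (eval x (f j)) :=
    fun v => (v.pos hj0).trans_le (hle v)
  have hb : ∀ v : AbsoluteValue K ℝ,
      Real.posLog ((∏ i, Mv v (x i)) ^ D / ⨆ j, v (eval x (f j))) ≤
      (- Real.log (rhoW (wU D') r v (fun i : {i // i ∈ I} => x i.1))) + Real.log (S v) := by
    intro v
    have hS1 := hS.one_le v
    have hS0 : 0 < S v := by linarith
    have hP0 : 0 < ∏ i, Mv v (x i) := Finset.prod_pos fun i _ => Mv_pos v _
    obtain ⟨t, ht⟩ : ∃ t, t = (⨆ j, v (eval x (f j))) / (∏ i, Mv v (x i)) ^ D := ⟨_, rfl⟩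
    have ht0 : 0 < t := by rw [ht]; exact div_pos (hs v) (pow_pos hP0 D)
    have e1 : (∏ i, Mv v (x i)) ^ D / (⨆ j, v (eval x (f j))) = t⁻¹ := by
      rw [ht, inv_div]
    have hprod : ∀ i : {i // i ∈ I}, ∏ k : {i // i ∈ I}, Mv v (x k.1) ^ wU D' i k =
        Mv v (x i.1) ^ D' := by
      intro i
      rw [Finset.prod_eq_single i]
      · simp [wU]
      · intro k _ hk
        simp [wU, hk]
      · intro h
        exact absurd (Finset.mem_univ i) h
    have hle1 : (⨆ i, v (eval (fun i : {i // i ∈ I} => x i.1) (r i)) /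
        ∏ k : {i // i ∈ I}, Mv v (x k.1) ^ wU D' i k) ≤ S v * t := by
      refine Real.iSup_le (fun i => ?_) (by positivity)
      rw [hprod i, div_le_iff₀ (pow_pos (Mv_pos v _) _)]
      have := hloc v i
      rw [← ht] at this
      linarith
    have hrl : rhoW (wU D') r v (fun i : {i // i ∈ I} => x i.1) ≤ S v * min 1 t := by
      unfold rhoW
      rcases le_total 1 t with h | h
      · rw [min_eq_left h, mul_one]
        exact (min_le_left _ _).trans hS1
      · rw [min_eq_right h]
        exact (min_le_right _ _).trans hle1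
    have hmt : 0 < min 1 t := lt_min one_pos ht0
    have h1 := Real.log_le_log (hrho v).1 hrl
    rw [Real.log_mul hS0.ne' hmt.ne'] at h1
    have h2 : Real.posLog t⁻¹ = - Real.log (min 1 t) := by
      rw [Real.posLog, Real.log_inv]
      rcases le_total 1 t with h | h
      · rw [min_eq_left h, Real.log_one, neg_zero]
        have := Real.log_nonneg h
        exact max_eq_left (by linarith)
      · rw [min_eq_right h]
        have := Real.log_nonpos ht0.le h
        exact max_eq_right (by linarith)
    rw [e1, h2]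
    linarith
  have hFr : FS (fun v => - Real.log (rhoW (wU D') r v (fun i : {i // i ∈ I} => x i.1))) := by
    refine hF.mono fun v _ h => ?_
    rw [h, neg_zero]
  have hFb := hFr.add hS.fin
  have hFp : FS (fun v => Real.posLog ((∏ i, Mv v (x i)) ^ D / ⨆ j, v (eval x (f j)))) := by
    refine hFb.mono fun v _ h => ?_
    exact le_antisymm ((hb v).trans h.le) Real.posLog_nonneg
  have h1 := PS_mono hFp hFb hb
  rw [PS_add hFr hS.fin] at h1
  exact h1

end Pool.Agent.Helper57.T3.CWB
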