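import Pool.Agent.Helper68.T3.GoalsT
import Pool.Agent.Helper73.VN.TAYF

/-!
# Packet PG-TAYF3 (MP_a41896_nt): the centre in the Taylor frame of one block
-/

set_option autoImplicit false

open MvPolynomial

namespace Pool.Agent.Helper57.T3.TAYF3

open WeierstrassCurve Height
open Pool.Agent.Helper29.BL Pool.Agent.Helper92.Ru Pool.Agent.Helper42.SG
open Pool.Agent.Helper65.SG Pool.Agent.Helper68.VN
open Pool.Agent.Helper62.SGB (plc_mul plc_prod plc_cst plc_Mv plc_one plc_pos le_prod_one)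
open Pool.Agent.Helper73.VN.TAYF

theorem t_TAYF3 : Pool.Agent.Helper68.T3.TAYF3 := by
  classical
  intro K _ _ σ _ _ W J _ D f hdeg B hB
  -- constants
  obtain ⟨n0, hn0⟩ : ∃ n0 : ℕ, n0 = ∑ k, (f k).support.card := ⟨_, rfl⟩
  obtain ⟨a, ha⟩ : ∃ a : ℕ, a = 1 + 2 * D := ⟨_, rfl⟩
  obtain ⟨Gc, hGc⟩ : ∃ Gc : AbsoluteValue K ℝ → ℝ, ∀ v, Gc v =
    ∏ k, ∏ g ∈ (f k).support, Mv v (coeff g (f k)) := ⟨_, fun _ => rfl⟩
  obtain ⟨Gb, hGb⟩ : ∃ Gb : AbsoluteValue K ℝ → ℝ, ∀ v, Gb v = ∏ i, bet (W i) v :=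
    ⟨_, fun _ => rfl⟩
  have hcst : PlC (K := K) fun v => c2 v := plc_cst (by norm_num)
  have hpow : ∀ m : ℕ, PlC (K := K) fun v => c2 v ^ m := by
    intro m
    have := plc_prod (K := K) (Finset.range m) (fun _ v => c2 v) (fun _ _ => hcst)
    simpa using this
  have pGc : PlC Gc := by
    have := plc_prod (K := K) Finset.univ (fun k v => ∏ g ∈ (f k).support, Mv v (coeff g (f k)))
      (fun k _ => plc_prod _ _ fun g _ => plc_Mv _)
    have e : Gc = fun v => ∏ k, ∏ g ∈ (f k).support, Mv v (coeff g (f k)) := funext hGc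
    rw [e]; exact this
  have pGb : PlC Gb := by
    have := plc_prod (K := K) Finset.univ (fun i v => bet (W i) v)
      (fun i _ => ⟨fun v => one_le_bet _ _, FS_log_bet _⟩)
    have e : Gb = fun v => ∏ i, bet (W i) v := funext hGb
    rw [e]; exact this
  obtain ⟨m, hm⟩ : ∃ m : ℕ, m = 6 + (1 + (1 + (Fintype.card σ * a + n0 + 1))) := ⟨_, rfl⟩
  refine ⟨fun v => B v * (c2 v ^ m * (Gb v * Gc v)),
    plc_mul hB (plc_mul (hpow m) (plc_mul pGb pGc)), fun v => ?_, ?_⟩
  · have h1 := hB.one_le v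
    have h2 := (plc_mul (hpow m) (plc_mul pGb pGc)).one_le v
    exact le_mul_of_one_le_right (by linarith) h2
  intro τ ι ξ ψ X hT hψ hne v r hr hrr k
  obtain ⟨b, hb⟩ : ∃ b : ℝ, b = B v * (c2 v ^ m * (Gb v * Gc v)) := ⟨_, rfl⟩
  have hc := one_le_c2 v
  have hc0 : 0 < c2 v := by linarith
  have hB1 := hB.one_le v
  have hGb1 := pGb.one_le v
  have hGc1 := pGc.one_le v
  have hb1 : 1 ≤ b := by
    rw [hb]
    exact (plc_mul hB (plc_mul (hpow m) (plc_mul pGb pGc))).one_le v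
  have hb0 : 0 < b := by linarith
  have hrr' : ∀ i, r (ι i) ≤ rho D f v ξ / (B v * (c2 v ^ m * (Gb v * Gc v)) *
      Mv v (ξ i) ^ 2) := hrr
  rw [← hb] at hrr'
  show NPS v r (aeval X (f k))
    (rho D f v ξ * (B v * (c2 v ^ m * (Gb v * Gc v)) * (∏ i, Mv v (ξ i)) ^ D))
  rw [← hb]
  -- products of the `Mv`
  have hM1 : ∀ i, 1 ≤ Mv v (ξ i) := fun i => one_le_Mv v _
  have hPM : 1 ≤ ∏ i, Mv v (ξ i) := by
    calc (1 : ℝ) = ∏ _i : σ, 1 := by simp
      _ ≤ _ := Finset.prod_le_prod (fun _ _ => zero_le_one) fun i _ => hM1 i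
  have hPD : 0 < (∏ i, Mv v (ξ i)) ^ D := pow_pos (by have := hPM; linarith) D
  -- `ρ`
  have hbdd : BddAbove (Set.range fun k => v (eval ξ (f k))) :=
    Set.finite_range _ |>.bddAbove
  have hSle : ∀ k, v (eval ξ (f k)) ≤ ⨆ k, v (eval ξ (f k)) := fun k =>
    le_ciSup hbdd k
  have hρ0 : 0 < rho D f v ξ := by
    obtain ⟨k, hk⟩ := hne
    have h1 : 0 < ⨆ k, v (eval ξ (f k)) := lt_of_lt_of_le (v.pos hk) (hSle k)
    exact lt_min one_pos (div_pos h1 hPD)
  have hρ1 : rho D f v ξ ≤ 1 := min_le_left _ _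
  -- the frame
  have NF := nfr_nps (K := K) v hr
  have alg : ∀ c : K, (MvPowerSeries.C c : MvPowerSeries (τ) K) =
      algebraMap K (MvPowerSeries (τ) K) c := by
    intro c
    rw [MvPowerSeries.algebraMap_apply]
    rfl
  set ρ : ℝ := rho D f v ξ with hρ
  have hρ0' : 0 ≤ ρ := hρ0.le
  -- the variables
  have hX : ∀ i, Gd v (NPS v r) ρ (X i) (ξ i) (c2 v) (Mv v (ξ i)) := by
    intro i
    have hM := hM1 i
    have hM0 : 0 < Mv v (ξ i) := by linarith
    have hbi : bet (W i) v ≤ Gb v := by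
      rw [hGb]
      exact le_prod_one Finset.univ (fun i => bet (W i) v) (fun i _ => one_le_bet _ _)
        (Finset.mem_univ i)
    obtain ⟨-, -, -, hq, -⟩ := tay_est (W i) v (Gb v) hbi (ξ i) (ψ i) (hψ i)
    have hu : NPS v r (X i - algebraMap K _ (ξ i)) (ρ * Mv v (ξ i)) := by
      have e : X i - algebraMap K _ (ξ i) =
          algebraMap K _ (4 * ψ i ^ 2) * MvPowerSeries.X (ι i) := by
        rw [hT, alg, alg]; ring
      rw [e]
      refine NF.mono _ _ _ (NF.mul _ _ _ _ (NF.const _) (nps_X hr (ι i))) ?_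
      have h1 : r (ι i) ≤ ρ / (b * Mv v (ξ i) ^ 2) := hrr' i
      refine (mul_le_mul_of_nonneg_left h1 (v.nonneg _)).trans ?_
      have h2 : c2 v ^ 6 * Gb v ≤ b := by
        rw [hb, hm]
        calc c2 v ^ 6 * Gb v = 1 * (c2 v ^ 6 * (Gb v * 1)) := by ring
          _ ≤ B v * (c2 v ^ (6 + (1 + (1 + (Fintype.card σ * a + n0 + 1)))) * (Gb v * Gc v)) := by
            gcongr
            omega
      calc v (4 * ψ i ^ 2) * (ρ / (b * Mv v (ξ i) ^ 2))
          ≤ (c2 v ^ 6 * Gb v * Mv v (ξ i) ^ 3) * (ρ / (b * Mv v (ξ i) ^ 2)) := by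
            gcongr
        _ ≤ (b * Mv v (ξ i) ^ 3) * (ρ / (b * Mv v (ξ i) ^ 2)) := by
            gcongr
        _ = ρ * Mv v (ξ i) := by
            field_simp
    refine ⟨hc, hM0.le, le_max_right _ _, ?_, ?_⟩
    · have e : X i = (X i - algebraMap K _ (ξ i)) + algebraMap K _ (ξ i) := by ring
      rw [e]
      refine frame_add NF (NF.mono _ _ _ hu ?_) (NF.mono _ _ _ (NF.const _) (le_max_right _ _))
      have := hρ1
      calc ρ * Mv v (ξ i) ≤ 1 * Mv v (ξ i) := by gcongr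
        _ = _ := one_mul _
    · refine NF.mono _ _ _ hu ?_
      calc ρ * Mv v (ξ i) = 1 * ρ * Mv v (ξ i) := by ring
        _ ≤ c2 v * ρ * Mv v (ξ i) := by gcongr
  -- the monomials
  have hmon : ∀ g ∈ (f k).support, Gd v (NPS v r) ρ
      (algebraMap K _ (coeff g (f k)) * ∏ i, X i ^ g i) (coeff g (f k) * ∏ i, ξ i ^ g i)
      (c2 v ^ (1 + Fintype.card σ * a)) (Gc v * (∏ i, Mv v (ξ i)) ^ D) := by
    intro g hg
    have hgD : ∀ i, g i ≤ D := fun i => (degreeOf_le_iff.1 (hdeg k i)) g hg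
    have h1 := Gd.prod NF hρ0' Finset.univ (fun i => X i ^ g i) (fun i => ξ i ^ g i)
      (fun i => (c2 v * c2 v) ^ g i) (fun i => Mv v (ξ i) ^ g i)
      (fun i => Gd.pow NF hρ0' (hX i) (g i))
    have h2 := Gd.mul NF hρ0' (Gd.const (A := MvPowerSeries (τ) K) NF hρ0'
      (coeff g (f k))) h1
    refine h2.mono NF hρ0' ?_ ?_
    · rw [one_mul, pow_add, pow_one]
      refine mul_le_mul_of_nonneg_left ?_ hc0.le
      calc ∏ i, (c2 v * (c2 v * c2 v) ^ g i) ≤ ∏ _i : σ, c2 v ^ a := by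
            refine Finset.prod_le_prod (fun i _ => by positivity) fun i _ => ?_
            have e : c2 v * (c2 v * c2 v) ^ g i = c2 v ^ (1 + 2 * g i) := by
              rw [pow_add, pow_one, pow_mul, pow_two]
            rw [e, ha]
            exact pow_le_pow_right₀ hc (by have := hgD i; omega)
        _ = c2 v ^ (Fintype.card σ * a) := by
            rw [Finset.prod_const, Finset.card_univ, ← pow_mul, mul_comm]
    · have h3 : v (coeff g (f k)) ≤ Gc v := by
        rw [hGc]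
        have h4 : Mv v (coeff g (f k)) ≤ ∏ g ∈ (f k).support, Mv v (coeff g (f k)) :=
          le_prod_one _ (fun g => Mv v (coeff g (f k))) (fun g _ => one_le_Mv v _) hg
        have h5 : ∏ g ∈ (f k).support, Mv v (coeff g (f k)) ≤
            ∏ k, ∏ g ∈ (f k).support, Mv v (coeff g (f k)) :=
          le_prod_one Finset.univ (fun k => ∏ g ∈ (f k).support, Mv v (coeff g (f k)))
            (fun k _ => by
              calc (1 : ℝ) = ∏ _g ∈ (f k).support, 1 := by simp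
                _ ≤ _ := Finset.prod_le_prod (fun _ _ => zero_le_one)
                  fun i _ => one_le_Mv v _) (Finset.mem_univ k)
        exact (le_max_right _ _).trans (h4.trans h5)
      have h6 : ∏ i, Mv v (ξ i) ^ g i ≤ (∏ i, Mv v (ξ i)) ^ D := by
        rw [← Finset.prod_pow]
        exact Finset.prod_le_prod (fun i _ => by have := Mv_pos v (ξ i); positivity)
          fun i _ => pow_le_pow_right₀ (hM1 i) (hgD i)
      have h7 : 0 ≤ ∏ i, Mv v (ξ i) ^ g i :=
        Finset.prod_nonneg fun i _ => by have := Mv_pos v (ξ i); positivity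
      exact mul_le_mul h3 h6 h7 (by linarith)
  have hsum := Gd.sum NF hρ0' (f k).support
    (fun g => algebraMap K _ (coeff g (f k)) * ∏ i, X i ^ g i)
    (fun g => coeff g (f k) * ∏ i, ξ i ^ g i)
    (c2 v ^ (1 + Fintype.card σ * a)) (Gc v * (∏ i, Mv v (ξ i)) ^ D)
    (one_le_pow₀ hc) (mul_nonneg (by linarith) hPD.le) hmon
  have e1 : ∑ g ∈ (f k).support, algebraMap K (MvPowerSeries (τ) K) (coeff g (f k)) *
      ∏ i, X i ^ g i = aeval X (f k) := by
    rw [aeval_def, eval₂_eq']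
  have e2 : ∑ g ∈ (f k).support, coeff g (f k) * ∏ i, ξ i ^ g i = eval ξ (f k) := by
    rw [eval_eq']
  rw [e1, e2] at hsum
  -- the value
  obtain ⟨T', hT'⟩ : ∃ T' : ℝ, T' = c2 v ^ (f k).support.card *
    (Gc v * (∏ i, Mv v (ξ i)) ^ D) := ⟨_, rfl⟩
  rw [← hT'] at hsum
  have hPD' := hPD
  have hval : v (eval ξ (f k)) ≤ ρ * T' := by
    rcases le_total 1 ((⨆ k, v (eval ξ (f k))) / (∏ i, Mv v (ξ i)) ^ D) with h | h
    · have h1 : ρ = 1 := min_eq_left h
      rw [h1, one_mul]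
      exact hsum.vp
    · have h1 : ρ = (⨆ k, v (eval ξ (f k))) / (∏ i, Mv v (ξ i)) ^ D := min_eq_right h
      have hS0 : 0 ≤ ⨆ k, v (eval ξ (f k)) := (v.nonneg _).trans (hSle k)
      rw [h1, hT']
      have h2 : (⨆ k, v (eval ξ (f k))) / (∏ i, Mv v (ξ i)) ^ D *
          (c2 v ^ (f k).support.card * (Gc v * (∏ i, Mv v (ξ i)) ^ D)) =
          (c2 v ^ (f k).support.card * Gc v) * ⨆ k, v (eval ξ (f k)) := by
        field_simp
      rw [h2]
      have h3 : 1 ≤ c2 v ^ (f k).support.card * Gc v :=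
        one_le_mul_of_one_le_of_one_le (one_le_pow₀ hc) hGc1
      calc v (eval ξ (f k)) ≤ 1 * ⨆ k, v (eval ξ (f k)) := by
            rw [one_mul]; exact hSle k
        _ ≤ _ := mul_le_mul_of_nonneg_right h3 hS0
  have hfin : NPS v r (aeval X (f k))
      (c2 v * (c2 v ^ (1 + Fintype.card σ * a) * ρ * T')) := by
    have e : aeval X (f k) = (aeval X (f k) - algebraMap K _ (eval ξ (f k))) +
        algebraMap K _ (eval ξ (f k)) := by ring
    rw [e]
    refine frame_add NF hsum.nD (NF.mono _ _ _ (NF.const _) ?_)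
    have hT0 := hsum.T0
    calc v (eval ξ (f k)) ≤ 1 * ρ * T' := by rw [one_mul]; exact hval
      _ ≤ c2 v ^ (1 + Fintype.card σ * a) * ρ * T' := by
        gcongr
        exact one_le_pow₀ hc
  refine NF.mono _ _ _ hfin ?_
  have hsc : (f k).support.card ≤ n0 := by
    rw [hn0]
    exact Finset.single_le_sum (f := fun k => (f k).support.card) (fun _ _ => Nat.zero_le _)
      (Finset.mem_univ k)
  rw [hT', hb]
  calc c2 v * (c2 v ^ (1 + Fintype.card σ * a) * ρ *
        (c2 v ^ (f k).support.card * (Gc v * (∏ i, Mv v (ξ i)) ^ D)))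
      = ρ * ((1 * (c2 v ^ (1 + (1 + Fintype.card σ * a) + (f k).support.card) *
          (1 * Gc v))) * (∏ i, Mv v (ξ i)) ^ D) := by
        rw [pow_add (c2 v) (1 + (1 + Fintype.card σ * a)) (f k).support.card,
          pow_add (c2 v) 1 (1 + Fintype.card σ * a), pow_one]; ring
    _ ≤ ρ * (B v * (c2 v ^ m * (Gb v * Gc v)) * (∏ i, Mv v (ξ i)) ^ D) := by
        have h9 : 0 ≤ (∏ i, Mv v (ξ i)) ^ D := hPD'.le
        gcongr
        rw [hm]; omega

end Pool.Agent.Helper57.T3.TAYF3
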